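import Pool.Agent.H92.KST.TargetsX

/-!
# KEW, block (k), row NAG
-/

set_option autoImplicit false
set_option linter.dupNamespace false

universe u

namespace Pool.Agent.H38.KST

open Pool.Agent.H92.KST

theorem nag_loc {C R F : Type u} [CommRing C] [CommRing R] [Field F] (j : C →+* R) (k : R →+* F)
    (hk : Function.Injective k) (hj : Function.Injective j) (M : Submonoid C)
    (hM : ∀ c ∈ M, ∃ r : R, k (j c) * k r = 1)
    (hs : ∀ r : R, ∃ c c' : C, c' ∈ M ∧ k r * k (j c') = k (j c)) :
    @IsLocalization C _ M R _ j.toAlgebra := by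
  letI : Algebra C R := j.toAlgebra
  have hal : ∀ c, algebraMap C R c = j c := fun c => rfl
  rw [isLocalization_iff]
  refine ⟨fun y => ?_, fun z => ?_, fun {a b} hab => ?_⟩
  · obtain ⟨r, hr⟩ := hM y y.2
    rw [hal]
    refine IsUnit.of_mul_eq_one r (hk ?_)
    rw [map_mul, hr, map_one]
  · obtain ⟨c, c', hc', h⟩ := hs z
    refine ⟨(c, ⟨c', hc'⟩), hk ?_⟩
    rw [map_mul, hal, hal]
    exact h
  · refine ⟨1, ?_⟩
    rw [hal, hal] at hab
    rw [hj hab]

theorem nag_aux {A F P : Type u} [CommRing A] [Field F] [CharZero F] [Algebra A F]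
    (B : Subalgebra A F) (hBfg : B.FG) (hfr : ∀ f : F, ∃ a ∈ B, ∃ b ∈ B, b ≠ 0 ∧ f = a / b)
    (x : Ideal B) (hx : x.IsPrime) (O : Subring F)
    (hO : ∀ f : F, f ∈ O ↔ ∃ s : B, s ∉ x ∧ (s : F) * f ∈ B)
    [CommRing P] [IsDomain P] [IsNoetherianRing P] [IsIntegrallyClosed P] (g : P →+* B)
    (hg : Function.Injective g) (hgA : ∀ a : A, ∃ p : P, g p = algebraMap A B a)
    (hr : ∃ r : B, r ∉ x ∧ g.IsIntegralElem r ∧ ∀ b : B, ∃ k : ℕ, g.IsIntegralElem (r ^ k * b))
    (h3 : T_NA3.{u}) (h4 : T_NA4.{u}) (h5 : T_NA5.{u}) :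
    IsNoetherianRing (integralClosure O F) ∧ EQH O := by
  classical
  letI algPF : Algebra P F := ((B.val : B →ₐ[A] F).toRingHom.comp g).toAlgebra
  have hPF : ∀ p : P, algebraMap P F p = ((g p : B) : F) := fun p => rfl
  have hPFinj : Function.Injective (algebraMap P F) := by
    intro p q h
    rw [hPF, hPF] at h
    exact hg (Subtype.ext h)
  -- the subalgebra over `P`
  let B' : Subalgebra P F :=
    { carrier := (B : Set F)
      mul_mem' := fun {a b} ha hb => B.mul_mem ha hb
      one_mem' := B.one_mem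
      add_mem' := fun {a b} ha hb => B.add_mem ha hb
      zero_mem' := B.zero_mem
      algebraMap_mem' := fun p => (g p).2 }
  have hB' : ∀ f : F, f ∈ B' ↔ f ∈ B := fun f => Iff.rfl
  let e : B' →+* B :=
    { toFun := fun b => ⟨b, b.2⟩
      map_one' := rfl
      map_mul' := fun _ _ => rfl
      map_zero' := rfl
      map_add' := fun _ _ => rfl }
  let x' : Ideal B' := x.comap e
  have hx' : x'.IsPrime := Ideal.IsPrime.comap e
  have hx'm : ∀ (s : F) (hs : s ∈ B'), (⟨s, hs⟩ : B') ∈ x' ↔ (⟨s, hs⟩ : B) ∈ x :=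
    fun s hs => Iff.rfl
  have hO' : ∀ f : F, f ∈ O ↔ ∃ s : B', s ∉ x' ∧ (s : F) * f ∈ B' := by
    intro f
    rw [hO f]
    constructor
    · rintro ⟨s, h1, h2⟩; exact ⟨⟨s, s.2⟩, h1, h2⟩
    · rintro ⟨s, h1, h2⟩; exact ⟨⟨s, s.2⟩, h1, h2⟩
  -- integrality transported
  have hint : ∀ b : B, g.IsIntegralElem b → IsIntegral P (b : F) := by
    rintro b ⟨q, hq, hq0⟩
    refine ⟨q, hq, ?_⟩
    have h1 : Polynomial.eval₂ (algebraMap P F) (b : F) q =
        (B.val : B →ₐ[A] F).toRingHom (Polynomial.eval₂ g b q) := by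
      rw [Polynomial.hom_eval₂]; rfl
    rw [h1, hq0, map_zero]
  have hint' : ∀ (b : F) (hb : b ∈ B'), IsIntegral P b → IsIntegral P (⟨b, hb⟩ : B') := by
    intro b hb h
    have h1 : Function.Injective (algebraMap B' F) := Subtype.val_injective
    exact (isIntegral_algebraMap_iff (x := (⟨b, hb⟩ : B')) h1).1 h
  obtain ⟨r, hrx, hri, hrk⟩ := hr
  obtain ⟨hCR, hR⟩ := h4 P F B' x' hx' O hO' ⟨⟨r, r.2⟩, hrx, hint' _ _ (hint r hri), fun b => by
    obtain ⟨k, hk⟩ := hrk ⟨b, b.2⟩
    exact ⟨k, hint' _ _ (hint _ hk)⟩⟩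
  -- finite generation
  have hBfg' : B'.FG := by
    obtain ⟨S, hS⟩ := hBfg
    refine ⟨S, le_antisymm ?_ ?_⟩
    · refine Algebra.adjoin_le fun s hs => ?_
      have : s ∈ B := by rw [← hS]; exact Algebra.subset_adjoin hs
      exact this
    · intro b hb
      have hb2 : b ∈ Algebra.adjoin A (S : Set F) := by rw [hS]; exact hb
      induction hb2 using Algebra.adjoin_induction with
      | mem y hy => exact Algebra.subset_adjoin hy
      | algebraMap a =>
        obtain ⟨p, hp⟩ := hgA a
        have h1 : algebraMap A F a = algebraMap P F p := by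
          rw [hPF, hp]; rfl
        rw [h1]
        exact Subalgebra.algebraMap_mem _ p
      | add y z hy hz ihy ihz =>
        rw [hS] at hy hz
        exact Subalgebra.add_mem _ (ihy hy) (ihz hz)
      | mul y z hy hz ihy ihz =>
        rw [hS] at hy hz
        exact Subalgebra.mul_mem _ (ihy hy) (ihz hz)
  have hr0 : (r : F) ≠ 0 := by
    intro h
    apply hrx
    have h1 : r = 0 := Subtype.ext h
    rw [h1]; exact x.zero_mem
  haveI hCn : IsNoetherianRing (integralClosure P F) := h5 P F hPFinj B' hBfg' hfr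
    ⟨r, r.2, hr0, fun b hb => by
      obtain ⟨k, hk⟩ := hrk ⟨b, hb⟩
      exact ⟨k, hint _ hk⟩⟩
  -- the localisation
  let ι : integralClosure P F →+* integralClosure O F :=
    { toFun := fun c => ⟨c, hCR c c.2⟩
      map_one' := rfl
      map_mul' := fun _ _ => rfl
      map_zero' := rfl
      map_add' := fun _ _ => rfl }
  let M : Submonoid (integralClosure P F) :=
    { carrier := {c | ∃ s : B', s ∉ x' ∧ (s : F) = c}
      one_mem' := ⟨1, fun h => hx'.ne_top ((Ideal.eq_top_iff_one _).2 h), rfl⟩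
      mul_mem' := by
        rintro a b ⟨s, hs, hsa⟩ ⟨t, ht, htb⟩
        exact ⟨s * t, fun h => (hx'.mem_or_mem h).elim hs ht, by
          show (s : F) * (t : F) = (a : F) * (b : F)
          rw [hsa, htb]⟩ }
  have hne : ∀ s : B', s ∉ x' → (s : F) ≠ 0 := by
    intro s hs h
    apply hs
    have h1 : s = 0 := Subtype.ext h
    rw [h1]; exact x'.zero_mem
  letI algCR : Algebra (integralClosure P F) (integralClosure O F) := ι.toAlgebra
  have hloc : IsLocalization M (integralClosure O F) := by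
    refine nag_loc ι (algebraMap (integralClosure O F) F) Subtype.val_injective ?_ M ?_ ?_
    · intro a b h
      exact Subtype.ext (congrArg (fun z : integralClosure O F => (z : F)) h)
    · rintro c ⟨s, hs, hsc⟩
      have h1 : (s : F)⁻¹ ∈ O := by
        rw [hO']
        exact ⟨s, hs, by rw [mul_inv_cancel₀ (hne s hs)]; exact B'.one_mem⟩
      refine ⟨algebraMap O (integralClosure O F) ⟨(s : F)⁻¹, h1⟩, ?_⟩
      show (c : F) * (s : F)⁻¹ = 1
      rw [← hsc, mul_inv_cancel₀ (hne s hs)]
    · intro f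
      obtain ⟨s, hs, hsi, hsf⟩ := (hR f).1 f.2
      have hsi' : (s : F) ∈ integralClosure P F := by
        show IsIntegral P (s : F)
        have h1 : Function.Injective (algebraMap B' F) := Subtype.val_injective
        exact (isIntegral_algebraMap_iff (x := s) h1).2 hsi
      refine ⟨⟨(s : F) * f, hsf⟩, ⟨(s : F), hsi'⟩, ⟨s, hs, rfl⟩, ?_⟩
      show (f : F) * (s : F) = (s : F) * f
      ring
  refine ⟨IsLocalization.isNoetherianRing M (integralClosure O F) hCn, ?_⟩
  -- heights
  intro Q Q' hQ hQ' hQQ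
  have hPCinj : Function.Injective (algebraMap P (integralClosure P F)) := by
    intro p q h
    exact hPFinj (congrArg (fun z : integralClosure P F => (z : F)) h)
  have hPC : Algebra.IsIntegral P (integralClosure P F) := inferInstance
  have hht : ∀ J : Ideal (integralClosure O F), J.IsPrime →
      J.height = ((J.comap ι).comap (algebraMap P (integralClosure P F))).height := by
    intro J hJ
    have h1 : (J.comap ι).height = J.height :=
      IsLocalization.height_under (R := integralClosure P F) M J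
    rw [← h1]
    exact h3 P (integralClosure P F) hPCinj hPC (J.comap ι) (Ideal.IsPrime.comap ι)
  rw [hht Q hQ, hht Q' hQ']
  congr 1
  ext p
  have hpO : ((g p : B) : F) ∈ O := by
    rw [hO]
    refine ⟨1, fun h => hx.ne_top ((Ideal.eq_top_iff_one _).2 h), ?_⟩
    rw [OneMemClass.coe_one, one_mul]
    exact (g p).2
  have h1 : ∀ J : Ideal (integralClosure O F),
      p ∈ (J.comap ι).comap (algebraMap P (integralClosure P F)) ↔
        (⟨((g p : B) : F), hpO⟩ : O) ∈ J.comap (algebraMap O (integralClosure O F)) :=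
    fun J => Iff.rfl
  rw [h1 Q, h1 Q', hQQ]

theorem pf_NAG (h1 : T_NA1.{u}) (h2 : T_NA2.{u}) (h3 : T_NA3.{u}) (h4 : T_NA4.{u})
    (h5 : T_NA5.{u}) : T_NAG.{u} := by
  intro A F _ _ _ _ _ _ hAF π hπ B hBfg hfr x hx hπx O hO
  haveI : Algebra.FiniteType A B := (Subalgebra.fg_iff_finiteType B).1 hBfg
  haveI hBn : IsNoetherianRing B := Algebra.FiniteType.isNoetherianRing A B
  have hABinj : Function.Injective (algebraMap A B) := by
    intro a b h
    exact hAF (congrArg (fun z : B => (z : F)) h)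
  have hnu : ¬ IsUnit (algebraMap A B π) := fun h =>
    hx.ne_top (Ideal.eq_top_of_isUnit_mem _ hπx h)
  obtain ⟨m, g, hg, hfin⟩ := h1 A B π hπ hABinj hnu
  have key : ∃ r : B, r ∉ x ∧ g.toRingHom.IsIntegralElem r ∧
      ∀ b : B, ∃ k : ℕ, g.toRingHom.IsIntegralElem (r ^ k * b) := by
    letI algPB : Algebra (MvPolynomial (Fin m) A) B := g.toRingHom.toAlgebra
    haveI : IsScalarTower A (MvPolynomial (Fin m) A) B :=
      IsScalarTower.of_algebraMap_eq fun a => (g.commutes a).symm
    haveI : Algebra.FiniteType (MvPolynomial (Fin m) A) B :=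
      Algebra.FiniteType.of_restrictScalars_finiteType A (MvPolynomial (Fin m) A) B
    have hCπ : algebraMap (MvPolynomial (Fin m) A) B (MvPolynomial.C π) = algebraMap A B π :=
      g.commutes π
    refine h2 (MvPolynomial (Fin m) A) B (MvPolynomial.C π) x hx ?_ ?_
    · rw [hCπ]; exact hπx
    · have hh : ∀ c c' : B, c = c' →
          ((Ideal.Quotient.mk (Ideal.span {c'})).comp g.toRingHom).Finite →
          ((Ideal.Quotient.mk (Ideal.span {c})).comp g.toRingHom).Finite := by
        rintro _ _ rfl h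
        exact h
      exact hh _ _ hCπ hfin
  have hmain := nag_aux B hBfg hfr x hx O hO g.toRingHom hg
    (fun a => ⟨algebraMap A (MvPolynomial (Fin m) A) a, g.commutes a⟩) key h3 h4 h5
  refine ⟨?_, hmain⟩
  -- `O` is noetherian
  have hBO : ∀ b : B, (b : F) ∈ O := by
    intro b
    rw [hO]
    refine ⟨1, fun h => hx.ne_top ((Ideal.eq_top_iff_one _).2 h), ?_⟩
    rw [OneMemClass.coe_one, one_mul]
    exact b.2
  let j : B →+* O :=
    { toFun := fun b => ⟨b, hBO b⟩
      map_one' := rfl
      map_mul' := fun _ _ => rfl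
      map_zero' := rfl
      map_add' := fun _ _ => rfl }
  have hne : ∀ s : B, s ∉ x → (s : F) ≠ 0 := by
    intro s hs h
    apply hs
    have h1 : s = 0 := Subtype.ext h
    rw [h1]; exact x.zero_mem
  letI algBO : Algebra B O := j.toAlgebra
  have hloc : IsLocalization x.primeCompl O := by
    refine nag_loc j O.subtype Subtype.val_injective ?_ x.primeCompl ?_ ?_
    · intro a b h
      exact Subtype.ext (congrArg (fun z : O => (z : F)) h)
    · intro s hs
      have h1 : (s : F)⁻¹ ∈ O := by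
        rw [hO]
        exact ⟨s, hs, by rw [mul_inv_cancel₀ (hne s hs)]; exact B.one_mem⟩
      exact ⟨⟨(s : F)⁻¹, h1⟩, mul_inv_cancel₀ (hne s hs)⟩
    · intro f
      obtain ⟨s, hs, hsf⟩ := (hO f).1 f.2
      refine ⟨⟨(s : F) * f, hsf⟩, s, hs, ?_⟩
      show (f : F) * (s : F) = (s : F) * f
      ring
  exact IsLocalization.isNoetherianRing x.primeCompl O hBn

end Pool.Agent.H38.KST
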